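import Pool.Agent.H93Z.Cens.Round

/-! The lazy censored walk on a monotone subset `A` of the hypercube mixes in
`O(n log n / P(A)^3)` steps. -/

set_option autoImplicit false

namespace Pool.Agent.Results.MP_52661b_pr.ADensityCubed

open Finset

/-- The point obtained from `x` by flipping coordinate `i`. -/
def flipAt {n : ℕ} (x : Fin n → Bool) (i : Fin n) : Fin n → Bool :=
  Function.update x i (!x i)

/-- The censored move: flip coordinate `i` if the result lies in `A`, otherwise stay. -/
def move {n : ℕ} (A : Finset (Fin n → Bool)) (x : Fin n → Bool) (i : Fin n) : Fin n → Bool :=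
  if flipAt x i ∈ A then flipAt x i else x

/-- Transition matrix of the lazy censored walk on `A`: with probability `1/2` stay put,
otherwise pick a uniform coordinate `i` and make the censored move. -/
noncomputable def trans {n : ℕ} (A : Finset (Fin n → Bool)) : Matrix A A ℝ := fun x y =>
  (1 / 2) * (if x = y then 1 else 0) +
    (1 / 2) * ((1 / (n : ℝ)) * ∑ i : Fin n, if move A x.1 i = y.1 then 1 else 0)

/-- From every start in `A`, the law after `t` steps is within total variation distance `1/4`
of the uniform distribution on `A`. -/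
def Mixed {n : ℕ} (A : Finset (Fin n → Bool)) (t : ℕ) : Prop :=
  ∀ x : A, (1 / 2) * ∑ y : A, |(trans A ^ t) x y - 1 / (A.card : ℝ)| ≤ 1 / 4

/-- The mixing time: the least `t` with `Mixed A t`. -/
noncomputable def tmix {n : ℕ} (A : Finset (Fin n → Bool)) : ℕ := sInf {t | Mixed A t}

open Pool.Agent.H93Z.Cens

lemma move_eq {n : ℕ} (A : Finset (Fin n → Bool)) {x : Fin n → Bool} (hx : x ∈ A) (i : Fin n) :
    move A x i = cf A i x := by
  simp [move, cf, flipAt, fl, hx]

lemma bridge {n : ℕ} (hn : 0 < n) (A : Finset (Fin n → Bool)) (x : A) (t : ℕ) :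
    ∀ y : A, (trans A ^ t) x y = (PL A ^ t) (Pi.single x.1 1) y.1 := by
  have hn' : (0 : ℝ) < n := by exact_mod_cast hn
  induction t with
  | zero =>
    intro y
    by_cases h : x = y
    · subst h; simp
    · have h' : y.1 ≠ x.1 := fun e => h (Subtype.ext e.symm)
      simp [h, h']
  | succ t ih =>
    intro y
    rw [pow_succ, Matrix.mul_apply, pow_succ_apply]
    simp only [ih]
    set ν := (PL A ^ t) (Pi.single x.1 1) with hν
    have e1 : ∀ w : A, ν w.1 * trans A w y = (1 / 2) * (if w = y then ν w.1 else 0) +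
        (1 / (2 * n)) * ∑ i : Fin n, if w.1 = cf A i y.1 then ν w.1 else 0 := by
      intro w
      have e2 : ∀ i : Fin n, (move A w.1 i = y.1) = (w.1 = cf A i y.1) := by
        intro i
        rw [move_eq A w.2]
        apply propext
        constructor
        · intro h; rw [← h, cf_cf]
        · intro h; rw [h, cf_cf]
      simp only [trans, e2, mul_add, Finset.mul_sum]
      congr 1
      · split_ifs <;> ring
      · refine Finset.sum_congr rfl fun i _ => ?_
        split_ifs
        · field_simp
        · simp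
    simp only [e1, Finset.sum_add_distrib, ← Finset.mul_sum]
    rw [Finset.sum_comm]
    have e3 : ∀ i : Fin n, (∑ w : A, if w.1 = cf A i y.1 then ν w.1 else 0) = ν (cf A i y.1) := by
      intro i
      rw [Finset.sum_eq_single (⟨cf A i y.1, (cf_mem A i y.1).mpr y.2⟩ : A)]
      · simp
      · intro w _ hw
        rw [if_neg]
        intro h; exact hw (Subtype.ext h)
      · simp
    simp only [e3, Finset.sum_ite_eq', mem_univ, if_true, PL_apply, Pk_eq, Fintype.card_fin]
    rw [← Finset.sum_div, Finset.sum_add_distrib]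
    simp only [Finset.sum_const, Finset.card_univ, Fintype.card_fin, nsmul_eq_mul]
    field_simp

theorem result : ∃ C : ℝ, ∀ n : ℕ, 2 ≤ n → ∀ A : Finset (Fin n → Bool), A.Nonempty →
    IsUpperSet (A : Set (Fin n → Bool)) →
      Mixed A (tmix A) ∧
        (tmix A : ℝ) ≤ C * n * Real.log n / ((A.card : ℝ) / 2 ^ n) ^ 3 := by
  refine ⟨2 ^ 36, fun n hn A hne hA => ?_⟩
  have hAc : (0 : ℝ) < A.card := by exact_mod_cast hne.card_pos
  obtain ⟨t, ht, hmix⟩ := mix (a := (A.card : ℝ) / 2 ^ n) (by positivity) hn (A := A)
    (fun x hx y hxy => hA hxy hx) le_rfl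
  have hM : Mixed A t := by
    intro x
    have h1 := hmix x.1 x.2
    simp only [bridge (by omega) A x t]
    have h2 : ∑ y : A, |(PL A ^ t) (Pi.single x.1 1) y.1 - 1 / (A.card : ℝ)| =
        ∑ z ∈ A, |(PL A ^ t) (Pi.single x.1 1) z - unif A (1 / A.card) z| := by
      rw [← Finset.sum_coe_sort A]
      exact Finset.sum_congr rfl fun y _ => by simp [unif, y.2]
    have h3 := Finset.sum_le_sum_of_subset_of_nonneg (subset_univ A)
      (f := fun z => |(PL A ^ t) (Pi.single x.1 1) z - unif A (1 / A.card) z|)
      (fun _ _ _ => abs_nonneg _)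
    rw [h2]
    linarith
  refine ⟨Nat.sInf_mem (s := {t | Mixed A t}) ⟨t, hM⟩, le_trans ?_ ht⟩
  exact_mod_cast Nat.sInf_le (s := {t | Mixed A t}) hM

end Pool.Agent.Results.MP_52661b_pr.ADensityCubed
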